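import Pool.Agent.Helper96.VF.Goals

/-!
# Packet VF-C5: finite check of types (`m/35`, `m/7`, `m`, `5m`)
-/

set_option autoImplicit false

namespace Pool.Agent.Helper63.VF

open Pool.Agent.Helper96.VF

/-- truth values of the comparisons of `n` with the first coordinates. -/
def PS (n p₃ p₇ p p₂ : ℕ) : List Bool :=
  [decide (2 * p₃ ≤ n), decide (16 * p₃ ≤ 5 * n), decide (2 * n < 5 * p₃),
   decide (2 * p₇ ≤ n), decide (16 * p₇ ≤ 5 * n), decide (2 * n < 5 * p₇),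
   decide (2 * p ≤ n), decide (16 * p ≤ 5 * n), decide (2 * n < 5 * p),
   decide (2 * p₂ ≤ n), decide (16 * p₂ ≤ 5 * n), decide (2 * n < 5 * p₂)]

/-- truth values of the comparisons of `n` with the second coordinates. -/
def QS (n q₃ q₇ q q₂ : ℕ) : List Bool :=
  [decide (2 * q₃ ≤ n ∧ 5 * n < 12 * q₃), decide (5 * q₃ ≤ 3 * n ∧ n < 2 * q₃),
   decide (2 * q₇ ≤ n ∧ 5 * n < 12 * q₇), decide (5 * q₇ ≤ 3 * n ∧ n < 2 * q₇),
   decide (2 * q ≤ n ∧ 5 * n < 12 * q), decide (5 * q ≤ 3 * n ∧ n < 2 * q),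
   decide (2 * q₂ ≤ n ∧ 5 * n < 12 * q₂), decide (5 * q₂ ≤ 3 * n ∧ n < 2 * q₂)]

/-- the possible first states. -/
def LP : List (List Bool) :=
  [[true, false, true, false, false, true, false, false, true, true, true, false],
   [true, false, false, true, false, true, false, false, true, true, true, false],
   [true, false, false, true, false, true, false, false, true, false, false, true],
   [true, false, false, true, false, false, false, false, true, false, false, true],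
   [true, true, false, true, false, false, false, false, true, false, false, true],
   [false, false, true, true, true, false, false, false, true, false, false, true],
   [false, false, true, true, true, false, true, false, true, false, false, true],
   [false, false, true, false, false, true, true, false, true, false, false, true],
   [false, false, true, false, false, true, true, false, false, true, false, true],
   [false, false, true, false, false, true, true, false, false, true, false, false],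
   [false, false, true, false, false, true, true, true, false, true, false, false],
   [true, false, true, false, false, true, true, true, false, true, false, false]]

/-- the possible second states. -/
def LQ : List (List Bool) :=
  [[false, false, true, false, false, false, false, true],
   [false, false, false, false, false, false, false, true],
   [false, false, false, false, false, false, true, false],
   [false, true, false, false, false, false, true, false],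
   [false, true, false, false, false, false, false, false],
   [true, false, false, false, false, false, false, false],
   [true, false, false, false, false, true, false, false],
   [false, false, false, false, false, true, false, false],
   [false, false, false, false, true, false, false, false],
   [false, false, false, true, true, false, false, false],
   [false, false, false, true, false, false, false, false],
   [false, false, true, false, false, false, false, false]]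

/-- the type as a truth value. -/
def TB (f a b d e g : Bool) : Bool := a && !(f && b && e) && !(d && g)

/-- the assertion for one pair of states. -/
def chk (P Q : List Bool) (f : Bool) : Bool :=
  match P, Q with
  | [a3, b3, d3, a7, b7, d7, a, b, d, a2, b2, d2], [e3, g3, e7, g7, e, g, e2, g2] =>
    (TB f a3 b3 d3 e3 g3 == TB true a7 b7 d7 e7 g7) || (TB true a7 b7 d7 e7 g7 == TB true a b d e g) ||
      (TB true a2 b2 d2 e2 g2 == TB true a b d e g)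
  | _, _ => true

theorem chk_all0 : (LP.all fun P => LQ.all fun Q => chk P Q true && chk P Q false) = true := by
  decide +kernel

theorem chk_all : ∀ P ∈ LP, ∀ Q ∈ LQ, ∀ f : Bool, chk P Q f = true := by
  intro P hP Q hQ f
  have h := chk_all0
  rw [List.all_eq_true] at h
  have h1 := h P hP
  rw [List.all_eq_true] at h1
  have h2 := h1 Q hQ
  rw [Bool.and_eq_true] at h2
  cases f
  · exact h2.2
  · exact h2.1

theorem p_0 (n p₃ p₇ p p₂ : ℕ) (h3 : p₃ ≤ n ∧ n < 4 * p₃) (h7 : p₇ ≤ n ∧ n < 4 * p₇)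
    (h2 : p₂ ≤ n ∧ n < 4 * p₂) (r3 : 5 * p₃ = 4 * p₇ ∨ 5 * p₃ = 16 * p₇)
    (r7 : 7 * p₇ = 4 * p ∨ 7 * p₇ = 16 * p) (r2 : 5 * p = 4 * p₂ ∨ 5 * p = 16 * p₂)
    (hc : 1 * p ≤ 1 * n ∧ 7 * n < 8 * p) :
    PS n p₃ p₇ p p₂ = [true, false, true, false, false, true, false, false, true, true, true, false] := by
  have r7' : 7 * p₇ = 4 * p := by clear r3 r2 h3 h2; omega
  have r3' : 5 * p₃ = 4 * p₇ := by clear r7 r2 h2; omega
  have r2' : 5 * p = 16 * p₂ := by clear r3 r7 h3 h7 r7' r3'; omega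
  clear h3 h7 h2 r3 r7 r2
  simp only [PS, List.cons.injEq, decide_eq_true_eq, decide_eq_false_iff_not, and_true]
  refine ⟨?_, ?_, ?_, ?_, ?_, ?_, ?_, ?_, ?_, ?_, ?_, ?_⟩ <;>
    first
      | linarith
      | (intro hh; linarith)
      | (rintro ⟨h1, h2⟩; linarith)
      | (constructor <;> linarith)

theorem p_1 (n p₃ p₇ p p₂ : ℕ) (h3 : p₃ ≤ n ∧ n < 4 * p₃) (h7 : p₇ ≤ n ∧ n < 4 * p₇)
    (h2 : p₂ ≤ n ∧ n < 4 * p₂) (r3 : 5 * p₃ = 4 * p₇ ∨ 5 * p₃ = 16 * p₇)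
    (r7 : 7 * p₇ = 4 * p ∨ 7 * p₇ = 16 * p) (r2 : 5 * p = 4 * p₂ ∨ 5 * p = 16 * p₂)
    (hc : 8 * p ≤ 7 * n ∧ 4 * n < 5 * p) :
    PS n p₃ p₇ p p₂ = [true, false, false, true, false, true, false, false, true, true, true, false] := by
  have r7' : 7 * p₇ = 4 * p := by clear r3 r2 h3 h2; omega
  have r3' : 5 * p₃ = 4 * p₇ := by clear r7 r2 h2; omega
  have r2' : 5 * p = 16 * p₂ := by clear r3 r7 h3 h7 r7' r3'; omega
  clear h3 h7 h2 r3 r7 r2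
  simp only [PS, List.cons.injEq, decide_eq_true_eq, decide_eq_false_iff_not, and_true]
  refine ⟨?_, ?_, ?_, ?_, ?_, ?_, ?_, ?_, ?_, ?_, ?_, ?_⟩ <;>
    first
      | linarith
      | (intro hh; linarith)
      | (rintro ⟨h1, h2⟩; linarith)
      | (constructor <;> linarith)

theorem p_2 (n p₃ p₇ p p₂ : ℕ) (h3 : p₃ ≤ n ∧ n < 4 * p₃) (h7 : p₇ ≤ n ∧ n < 4 * p₇)
    (h2 : p₂ ≤ n ∧ n < 4 * p₂) (r3 : 5 * p₃ = 4 * p₇ ∨ 5 * p₃ = 16 * p₇)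
    (r7 : 7 * p₇ = 4 * p ∨ 7 * p₇ = 16 * p) (r2 : 5 * p = 4 * p₂ ∨ 5 * p = 16 * p₂)
    (hc : 5 * p ≤ 4 * n ∧ 7 * n < 10 * p) :
    PS n p₃ p₇ p p₂ = [true, false, false, true, false, true, false, false, true, false, false, true] := by
  have r7' : 7 * p₇ = 4 * p := by clear r3 r2 h3 h2; omega
  have r3' : 5 * p₃ = 4 * p₇ := by clear r7 r2 h2; omega
  have r2' : 5 * p = 4 * p₂ := by clear r3 r7 h3 h7 r7' r3'; omega
  clear h3 h7 h2 r3 r7 r2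
  simp only [PS, List.cons.injEq, decide_eq_true_eq, decide_eq_false_iff_not, and_true]
  refine ⟨?_, ?_, ?_, ?_, ?_, ?_, ?_, ?_, ?_, ?_, ?_, ?_⟩ <;>
    first
      | linarith
      | (intro hh; linarith)
      | (rintro ⟨h1, h2⟩; linarith)
      | (constructor <;> linarith)

theorem p_3 (n p₃ p₇ p p₂ : ℕ) (h3 : p₃ ≤ n ∧ n < 4 * p₃) (h7 : p₇ ≤ n ∧ n < 4 * p₇)
    (h2 : p₂ ≤ n ∧ n < 4 * p₂) (r3 : 5 * p₃ = 4 * p₇ ∨ 5 * p₃ = 16 * p₇)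
    (r7 : 7 * p₇ = 4 * p ∨ 7 * p₇ = 16 * p) (r2 : 5 * p = 4 * p₂ ∨ 5 * p = 16 * p₂)
    (hc : 10 * p ≤ 7 * n ∧ 175 * n < 256 * p) :
    PS n p₃ p₇ p p₂ = [true, false, false, true, false, false, false, false, true, false, false, true] := by
  have r7' : 7 * p₇ = 4 * p := by clear r3 r2 h3 h2; omega
  have r3' : 5 * p₃ = 4 * p₇ := by clear r7 r2 h2; omega
  have r2' : 5 * p = 4 * p₂ := by clear r3 r7 h3 h7 r7' r3'; omega
  clear h3 h7 h2 r3 r7 r2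
  simp only [PS, List.cons.injEq, decide_eq_true_eq, decide_eq_false_iff_not, and_true]
  refine ⟨?_, ?_, ?_, ?_, ?_, ?_, ?_, ?_, ?_, ?_, ?_, ?_⟩ <;>
    first
      | linarith
      | (intro hh; linarith)
      | (rintro ⟨h1, h2⟩; linarith)
      | (constructor <;> linarith)

theorem p_4 (n p₃ p₇ p p₂ : ℕ) (h3 : p₃ ≤ n ∧ n < 4 * p₃) (h7 : p₇ ≤ n ∧ n < 4 * p₇)
    (h2 : p₂ ≤ n ∧ n < 4 * p₂) (r3 : 5 * p₃ = 4 * p₇ ∨ 5 * p₃ = 16 * p₇)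
    (r7 : 7 * p₇ = 4 * p ∨ 7 * p₇ = 16 * p) (r2 : 5 * p = 4 * p₂ ∨ 5 * p = 16 * p₂)
    (hc : 256 * p ≤ 175 * n ∧ 35 * n < 64 * p) :
    PS n p₃ p₇ p p₂ = [true, true, false, true, false, false, false, false, true, false, false, true] := by
  have r7' : 7 * p₇ = 4 * p := by clear r3 r2 h3 h2; omega
  have r3' : 5 * p₃ = 4 * p₇ := by clear r7 r2 h2; omega
  have r2' : 5 * p = 4 * p₂ := by clear r3 r7 h3 h7 r7' r3'; omega
  clear h3 h7 h2 r3 r7 r2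
  simp only [PS, List.cons.injEq, decide_eq_true_eq, decide_eq_false_iff_not, and_true]
  refine ⟨?_, ?_, ?_, ?_, ?_, ?_, ?_, ?_, ?_, ?_, ?_, ?_⟩ <;>
    first
      | linarith
      | (intro hh; linarith)
      | (rintro ⟨h1, h2⟩; linarith)
      | (constructor <;> linarith)

theorem p_5 (n p₃ p₇ p p₂ : ℕ) (h3 : p₃ ≤ n ∧ n < 4 * p₃) (h7 : p₇ ≤ n ∧ n < 4 * p₇)
    (h2 : p₂ ≤ n ∧ n < 4 * p₂) (r3 : 5 * p₃ = 4 * p₇ ∨ 5 * p₃ = 16 * p₇)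
    (r7 : 7 * p₇ = 4 * p ∨ 7 * p₇ = 16 * p) (r2 : 5 * p = 4 * p₂ ∨ 5 * p = 16 * p₂)
    (hc : 64 * p ≤ 35 * n ∧ 1 * n < 2 * p) :
    PS n p₃ p₇ p p₂ = [false, false, true, true, true, false, false, false, true, false, false, true] := by
  have r7' : 7 * p₇ = 4 * p := by clear r3 r2 h3 h2; omega
  have r3' : 5 * p₃ = 16 * p₇ := by clear r7 r2 h2; omega
  have r2' : 5 * p = 4 * p₂ := by clear r3 r7 h3 h7 r7' r3'; omega
  clear h3 h7 h2 r3 r7 r2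
  simp only [PS, List.cons.injEq, decide_eq_true_eq, decide_eq_false_iff_not, and_true]
  refine ⟨?_, ?_, ?_, ?_, ?_, ?_, ?_, ?_, ?_, ?_, ?_, ?_⟩ <;>
    first
      | linarith
      | (intro hh; linarith)
      | (rintro ⟨h1, h2⟩; linarith)
      | (constructor <;> linarith)

theorem p_6 (n p₃ p₇ p p₂ : ℕ) (h3 : p₃ ≤ n ∧ n < 4 * p₃) (h7 : p₇ ≤ n ∧ n < 4 * p₇)
    (h2 : p₂ ≤ n ∧ n < 4 * p₂) (r3 : 5 * p₃ = 4 * p₇ ∨ 5 * p₃ = 16 * p₇)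
    (r7 : 7 * p₇ = 4 * p ∨ 7 * p₇ = 16 * p) (r2 : 5 * p = 4 * p₂ ∨ 5 * p = 16 * p₂)
    (hc : 2 * p ≤ 1 * n ∧ 7 * n < 16 * p) :
    PS n p₃ p₇ p p₂ = [false, false, true, true, true, false, true, false, true, false, false, true] := by
  have r7' : 7 * p₇ = 4 * p := by clear r3 r2 h3 h2; omega
  have r3' : 5 * p₃ = 16 * p₇ := by clear r7 r2 h2; omega
  have r2' : 5 * p = 4 * p₂ := by clear r3 r7 h3 h7 r7' r3'; omega
  clear h3 h7 h2 r3 r7 r2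
  simp only [PS, List.cons.injEq, decide_eq_true_eq, decide_eq_false_iff_not, and_true]
  refine ⟨?_, ?_, ?_, ?_, ?_, ?_, ?_, ?_, ?_, ?_, ?_, ?_⟩ <;>
    first
      | linarith
      | (intro hh; linarith)
      | (rintro ⟨h1, h2⟩; linarith)
      | (constructor <;> linarith)

theorem p_7 (n p₃ p₇ p p₂ : ℕ) (h3 : p₃ ≤ n ∧ n < 4 * p₃) (h7 : p₇ ≤ n ∧ n < 4 * p₇)
    (h2 : p₂ ≤ n ∧ n < 4 * p₂) (r3 : 5 * p₃ = 4 * p₇ ∨ 5 * p₃ = 16 * p₇)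
    (r7 : 7 * p₇ = 4 * p ∨ 7 * p₇ = 16 * p) (r2 : 5 * p = 4 * p₂ ∨ 5 * p = 16 * p₂)
    (hc : 16 * p ≤ 7 * n ∧ 2 * n < 5 * p) :
    PS n p₃ p₇ p p₂ = [false, false, true, false, false, true, true, false, true, false, false, true] := by
  have r7' : 7 * p₇ = 16 * p := by clear r3 r2 h3 h2; omega
  have r3' : 5 * p₃ = 4 * p₇ := by clear r7 r2 h2; omega
  have r2' : 5 * p = 4 * p₂ := by clear r3 r7 h3 h7 r7' r3'; omega
  clear h3 h7 h2 r3 r7 r2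
  simp only [PS, List.cons.injEq, decide_eq_true_eq, decide_eq_false_iff_not, and_true]
  refine ⟨?_, ?_, ?_, ?_, ?_, ?_, ?_, ?_, ?_, ?_, ?_, ?_⟩ <;>
    first
      | linarith
      | (intro hh; linarith)
      | (rintro ⟨h1, h2⟩; linarith)
      | (constructor <;> linarith)

theorem p_8 (n p₃ p₇ p p₂ : ℕ) (h3 : p₃ ≤ n ∧ n < 4 * p₃) (h7 : p₇ ≤ n ∧ n < 4 * p₇)
    (h2 : p₂ ≤ n ∧ n < 4 * p₂) (r3 : 5 * p₃ = 4 * p₇ ∨ 5 * p₃ = 16 * p₇)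
    (r7 : 7 * p₇ = 4 * p ∨ 7 * p₇ = 16 * p) (r2 : 5 * p = 4 * p₂ ∨ 5 * p = 16 * p₂)
    (hc : 5 * p ≤ 2 * n ∧ 8 * n < 25 * p) :
    PS n p₃ p₇ p p₂ = [false, false, true, false, false, true, true, false, false, true, false, true] := by
  have r7' : 7 * p₇ = 16 * p := by clear r3 r2 h3 h2; omega
  have r3' : 5 * p₃ = 4 * p₇ := by clear r7 r2 h2; omega
  have r2' : 5 * p = 4 * p₂ := by clear r3 r7 h3 h7 r7' r3'; omega
  clear h3 h7 h2 r3 r7 r2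
  simp only [PS, List.cons.injEq, decide_eq_true_eq, decide_eq_false_iff_not, and_true]
  refine ⟨?_, ?_, ?_, ?_, ?_, ?_, ?_, ?_, ?_, ?_, ?_, ?_⟩ <;>
    first
      | linarith
      | (intro hh; linarith)
      | (rintro ⟨h1, h2⟩; linarith)
      | (constructor <;> linarith)

theorem p_9 (n p₃ p₇ p p₂ : ℕ) (h3 : p₃ ≤ n ∧ n < 4 * p₃) (h7 : p₇ ≤ n ∧ n < 4 * p₇)
    (h2 : p₂ ≤ n ∧ n < 4 * p₂) (r3 : 5 * p₃ = 4 * p₇ ∨ 5 * p₃ = 16 * p₇)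
    (r7 : 7 * p₇ = 4 * p ∨ 7 * p₇ = 16 * p) (r2 : 5 * p = 4 * p₂ ∨ 5 * p = 16 * p₂)
    (hc : 25 * p ≤ 8 * n ∧ 5 * n < 16 * p) :
    PS n p₃ p₇ p p₂ = [false, false, true, false, false, true, true, false, false, true, false, false] := by
  have r7' : 7 * p₇ = 16 * p := by clear r3 r2 h3 h2; omega
  have r3' : 5 * p₃ = 4 * p₇ := by clear r7 r2 h2; omega
  have r2' : 5 * p = 4 * p₂ := by clear r3 r7 h3 h7 r7' r3'; omega
  clear h3 h7 h2 r3 r7 r2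
  simp only [PS, List.cons.injEq, decide_eq_true_eq, decide_eq_false_iff_not, and_true]
  refine ⟨?_, ?_, ?_, ?_, ?_, ?_, ?_, ?_, ?_, ?_, ?_, ?_⟩ <;>
    first
      | linarith
      | (intro hh; linarith)
      | (rintro ⟨h1, h2⟩; linarith)
      | (constructor <;> linarith)

theorem p_10 (n p₃ p₇ p p₂ : ℕ) (h3 : p₃ ≤ n ∧ n < 4 * p₃) (h7 : p₇ ≤ n ∧ n < 4 * p₇)
    (h2 : p₂ ≤ n ∧ n < 4 * p₂) (r3 : 5 * p₃ = 4 * p₇ ∨ 5 * p₃ = 16 * p₇)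
    (r7 : 7 * p₇ = 4 * p ∨ 7 * p₇ = 16 * p) (r2 : 5 * p = 4 * p₂ ∨ 5 * p = 16 * p₂)
    (hc : 16 * p ≤ 5 * n ∧ 35 * n < 128 * p) :
    PS n p₃ p₇ p p₂ = [false, false, true, false, false, true, true, true, false, true, false, false] := by
  have r7' : 7 * p₇ = 16 * p := by clear r3 r2 h3 h2; omega
  have r3' : 5 * p₃ = 4 * p₇ := by clear r7 r2 h2; omega
  have r2' : 5 * p = 4 * p₂ := by clear r3 r7 h3 h7 r7' r3'; omega
  clear h3 h7 h2 r3 r7 r2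
  simp only [PS, List.cons.injEq, decide_eq_true_eq, decide_eq_false_iff_not, and_true]
  refine ⟨?_, ?_, ?_, ?_, ?_, ?_, ?_, ?_, ?_, ?_, ?_, ?_⟩ <;>
    first
      | linarith
      | (intro hh; linarith)
      | (rintro ⟨h1, h2⟩; linarith)
      | (constructor <;> linarith)

theorem p_11 (n p₃ p₇ p p₂ : ℕ) (h3 : p₃ ≤ n ∧ n < 4 * p₃) (h7 : p₇ ≤ n ∧ n < 4 * p₇)
    (h2 : p₂ ≤ n ∧ n < 4 * p₂) (r3 : 5 * p₃ = 4 * p₇ ∨ 5 * p₃ = 16 * p₇)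
    (r7 : 7 * p₇ = 4 * p ∨ 7 * p₇ = 16 * p) (r2 : 5 * p = 4 * p₂ ∨ 5 * p = 16 * p₂)
    (hc : 128 * p ≤ 35 * n ∧ 1 * n < 4 * p) :
    PS n p₃ p₇ p p₂ = [true, false, true, false, false, true, true, true, false, true, false, false] := by
  have r7' : 7 * p₇ = 16 * p := by clear r3 r2 h3 h2; omega
  have r3' : 5 * p₃ = 4 * p₇ := by clear r7 r2 h2; omega
  have r2' : 5 * p = 4 * p₂ := by clear r3 r7 h3 h7 r7' r3'; omega
  clear h3 h7 h2 r3 r7 r2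
  simp only [PS, List.cons.injEq, decide_eq_true_eq, decide_eq_false_iff_not, and_true]
  refine ⟨?_, ?_, ?_, ?_, ?_, ?_, ?_, ?_, ?_, ?_, ?_, ?_⟩ <;>
    first
      | linarith
      | (intro hh; linarith)
      | (rintro ⟨h1, h2⟩; linarith)
      | (constructor <;> linarith)

theorem q_0 (n q₃ q₇ q q₂ : ℕ) (h3 : q₃ ≤ n ∧ n < 3 * q₃) (h7 : q₇ ≤ n ∧ n < 3 * q₇)
    (h2 : q₂ ≤ n ∧ n < 3 * q₂) (r3 : 5 * q₃ = 3 * q₇ ∨ 5 * q₃ = 9 * q₇)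
    (r7 : 7 * q₇ = 3 * q ∨ 7 * q₇ = 9 * q) (r2 : 5 * q = 3 * q₂ ∨ 5 * q = 9 * q₂)
    (hc : 1 * q ≤ 1 * n ∧ 35 * n < 36 * q) :
    QS n q₃ q₇ q q₂ = [false, false, true, false, false, false, false, true] := by
  have r7' : 7 * q₇ = 3 * q := by clear r3 r2 h3 h2; omega
  have r3' : 5 * q₃ = 9 * q₇ := by clear r7 r2 h2; omega
  have r2' : 5 * q = 9 * q₂ := by clear r3 r7 h3 h7 r7' r3'; omega
  clear h3 h7 h2 r3 r7 r2
  simp only [QS, List.cons.injEq, decide_eq_true_eq, decide_eq_false_iff_not, and_true]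
  refine ⟨?_, ?_, ?_, ?_, ?_, ?_, ?_, ?_⟩ <;>
    first
      | linarith
      | (intro hh; linarith)
      | (rintro ⟨h1, h2⟩; linarith)
      | (constructor <;> linarith)

theorem q_1 (n q₃ q₇ q q₂ : ℕ) (h3 : q₃ ≤ n ∧ n < 3 * q₃) (h7 : q₇ ≤ n ∧ n < 3 * q₇)
    (h2 : q₂ ≤ n ∧ n < 3 * q₂) (r3 : 5 * q₃ = 3 * q₇ ∨ 5 * q₃ = 9 * q₇)
    (r7 : 7 * q₇ = 3 * q ∨ 7 * q₇ = 9 * q) (r2 : 5 * q = 3 * q₂ ∨ 5 * q = 9 * q₂)
    (hc : 36 * q ≤ 35 * n ∧ 9 * n < 10 * q) :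
    QS n q₃ q₇ q q₂ = [false, false, false, false, false, false, false, true] := by
  have r7' : 7 * q₇ = 3 * q := by clear r3 r2 h3 h2; omega
  have r3' : 5 * q₃ = 9 * q₇ := by clear r7 r2 h2; omega
  have r2' : 5 * q = 9 * q₂ := by clear r3 r7 h3 h7 r7' r3'; omega
  clear h3 h7 h2 r3 r7 r2
  simp only [QS, List.cons.injEq, decide_eq_true_eq, decide_eq_false_iff_not, and_true]
  refine ⟨?_, ?_, ?_, ?_, ?_, ?_, ?_, ?_⟩ <;>
    first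
      | linarith
      | (intro hh; linarith)
      | (rintro ⟨h1, h2⟩; linarith)
      | (constructor <;> linarith)

theorem q_2 (n q₃ q₇ q q₂ : ℕ) (h3 : q₃ ≤ n ∧ n < 3 * q₃) (h7 : q₇ ≤ n ∧ n < 3 * q₇)
    (h2 : q₂ ≤ n ∧ n < 3 * q₂) (r3 : 5 * q₃ = 3 * q₇ ∨ 5 * q₃ = 9 * q₇)
    (r7 : 7 * q₇ = 3 * q ∨ 7 * q₇ = 9 * q) (r2 : 5 * q = 3 * q₂ ∨ 5 * q = 9 * q₂)
    (hc : 10 * q ≤ 9 * n ∧ 7 * n < 9 * q) :
    QS n q₃ q₇ q q₂ = [false, false, false, false, false, false, true, false] := by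
  have r7' : 7 * q₇ = 3 * q := by clear r3 r2 h3 h2; omega
  have r3' : 5 * q₃ = 9 * q₇ := by clear r7 r2 h2; omega
  have r2' : 5 * q = 9 * q₂ := by clear r3 r7 h3 h7 r7' r3'; omega
  clear h3 h7 h2 r3 r7 r2
  simp only [QS, List.cons.injEq, decide_eq_true_eq, decide_eq_false_iff_not, and_true]
  refine ⟨?_, ?_, ?_, ?_, ?_, ?_, ?_, ?_⟩ <;>
    first
      | linarith
      | (intro hh; linarith)
      | (rintro ⟨h1, h2⟩; linarith)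
      | (constructor <;> linarith)

theorem q_3 (n q₃ q₇ q q₂ : ℕ) (h3 : q₃ ≤ n ∧ n < 3 * q₃) (h7 : q₇ ≤ n ∧ n < 3 * q₇)
    (h2 : q₂ ≤ n ∧ n < 3 * q₂) (r3 : 5 * q₃ = 3 * q₇ ∨ 5 * q₃ = 9 * q₇)
    (r7 : 7 * q₇ = 3 * q ∨ 7 * q₇ = 9 * q) (r2 : 5 * q = 3 * q₂ ∨ 5 * q = 9 * q₂)
    (hc : 9 * q ≤ 7 * n ∧ 3 * n < 4 * q) :
    QS n q₃ q₇ q q₂ = [false, true, false, false, false, false, true, false] := by
  have r7' : 7 * q₇ = 9 * q := by clear r3 r2 h3 h2; omega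
  have r3' : 5 * q₃ = 3 * q₇ := by clear r7 r2 h2; omega
  have r2' : 5 * q = 9 * q₂ := by clear r3 r7 h3 h7 r7' r3'; omega
  clear h3 h7 h2 r3 r7 r2
  simp only [QS, List.cons.injEq, decide_eq_true_eq, decide_eq_false_iff_not, and_true]
  refine ⟨?_, ?_, ?_, ?_, ?_, ?_, ?_, ?_⟩ <;>
    first
      | linarith
      | (intro hh; linarith)
      | (rintro ⟨h1, h2⟩; linarith)
      | (constructor <;> linarith)

theorem q_4 (n q₃ q₇ q q₂ : ℕ) (h3 : q₃ ≤ n ∧ n < 3 * q₃) (h7 : q₇ ≤ n ∧ n < 3 * q₇)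
    (h2 : q₂ ≤ n ∧ n < 3 * q₂) (r3 : 5 * q₃ = 3 * q₇ ∨ 5 * q₃ = 9 * q₇)
    (r7 : 7 * q₇ = 3 * q ∨ 7 * q₇ = 9 * q) (r2 : 5 * q = 3 * q₂ ∨ 5 * q = 9 * q₂)
    (hc : 4 * q ≤ 3 * n ∧ 35 * n < 54 * q) :
    QS n q₃ q₇ q q₂ = [false, true, false, false, false, false, false, false] := by
  have r7' : 7 * q₇ = 9 * q := by clear r3 r2 h3 h2; omega
  have r3' : 5 * q₃ = 3 * q₇ := by clear r7 r2 h2; omega
  have r2' : 5 * q = 9 * q₂ := by clear r3 r7 h3 h7 r7' r3'; omega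
  clear h3 h7 h2 r3 r7 r2
  simp only [QS, List.cons.injEq, decide_eq_true_eq, decide_eq_false_iff_not, and_true]
  refine ⟨?_, ?_, ?_, ?_, ?_, ?_, ?_, ?_⟩ <;>
    first
      | linarith
      | (intro hh; linarith)
      | (rintro ⟨h1, h2⟩; linarith)
      | (constructor <;> linarith)

theorem q_5 (n q₃ q₇ q q₂ : ℕ) (h3 : q₃ ≤ n ∧ n < 3 * q₃) (h7 : q₇ ≤ n ∧ n < 3 * q₇)
    (h2 : q₂ ≤ n ∧ n < 3 * q₂) (r3 : 5 * q₃ = 3 * q₇ ∨ 5 * q₃ = 9 * q₇)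
    (r7 : 7 * q₇ = 3 * q ∨ 7 * q₇ = 9 * q) (r2 : 5 * q = 3 * q₂ ∨ 5 * q = 9 * q₂)
    (hc : 54 * q ≤ 35 * n ∧ 3 * n < 5 * q) :
    QS n q₃ q₇ q q₂ = [true, false, false, false, false, false, false, false] := by
  have r7' : 7 * q₇ = 9 * q := by clear r3 r2 h3 h2; omega
  have r3' : 5 * q₃ = 3 * q₇ := by clear r7 r2 h2; omega
  have r2' : 5 * q = 9 * q₂ := by clear r3 r7 h3 h7 r7' r3'; omega
  clear h3 h7 h2 r3 r7 r2
  simp only [QS, List.cons.injEq, decide_eq_true_eq, decide_eq_false_iff_not, and_true]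
  refine ⟨?_, ?_, ?_, ?_, ?_, ?_, ?_, ?_⟩ <;>
    first
      | linarith
      | (intro hh; linarith)
      | (rintro ⟨h1, h2⟩; linarith)
      | (constructor <;> linarith)

theorem q_6 (n q₃ q₇ q q₂ : ℕ) (h3 : q₃ ≤ n ∧ n < 3 * q₃) (h7 : q₇ ≤ n ∧ n < 3 * q₇)
    (h2 : q₂ ≤ n ∧ n < 3 * q₂) (r3 : 5 * q₃ = 3 * q₇ ∨ 5 * q₃ = 9 * q₇)
    (r7 : 7 * q₇ = 3 * q ∨ 7 * q₇ = 9 * q) (r2 : 5 * q = 3 * q₂ ∨ 5 * q = 9 * q₂)
    (hc : 5 * q ≤ 3 * n ∧ 175 * n < 324 * q) :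
    QS n q₃ q₇ q q₂ = [true, false, false, false, false, true, false, false] := by
  have r7' : 7 * q₇ = 9 * q := by clear r3 r2 h3 h2; omega
  have r3' : 5 * q₃ = 3 * q₇ := by clear r7 r2 h2; omega
  have r2' : 5 * q = 3 * q₂ := by clear r3 r7 h3 h7 r7' r3'; omega
  clear h3 h7 h2 r3 r7 r2
  simp only [QS, List.cons.injEq, decide_eq_true_eq, decide_eq_false_iff_not, and_true]
  refine ⟨?_, ?_, ?_, ?_, ?_, ?_, ?_, ?_⟩ <;>
    first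
      | linarith
      | (intro hh; linarith)
      | (rintro ⟨h1, h2⟩; linarith)
      | (constructor <;> linarith)

theorem q_7 (n q₃ q₇ q q₂ : ℕ) (h3 : q₃ ≤ n ∧ n < 3 * q₃) (h7 : q₇ ≤ n ∧ n < 3 * q₇)
    (h2 : q₂ ≤ n ∧ n < 3 * q₂) (r3 : 5 * q₃ = 3 * q₇ ∨ 5 * q₃ = 9 * q₇)
    (r7 : 7 * q₇ = 3 * q ∨ 7 * q₇ = 9 * q) (r2 : 5 * q = 3 * q₂ ∨ 5 * q = 9 * q₂)
    (hc : 324 * q ≤ 175 * n ∧ 1 * n < 2 * q) :
    QS n q₃ q₇ q q₂ = [false, false, false, false, false, true, false, false] := by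
  have r7' : 7 * q₇ = 9 * q := by clear r3 r2 h3 h2; omega
  have r3' : 5 * q₃ = 3 * q₇ := by clear r7 r2 h2; omega
  have r2' : 5 * q = 3 * q₂ := by clear r3 r7 h3 h7 r7' r3'; omega
  clear h3 h7 h2 r3 r7 r2
  simp only [QS, List.cons.injEq, decide_eq_true_eq, decide_eq_false_iff_not, and_true]
  refine ⟨?_, ?_, ?_, ?_, ?_, ?_, ?_, ?_⟩ <;>
    first
      | linarith
      | (intro hh; linarith)
      | (rintro ⟨h1, h2⟩; linarith)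
      | (constructor <;> linarith)

theorem q_8 (n q₃ q₇ q q₂ : ℕ) (h3 : q₃ ≤ n ∧ n < 3 * q₃) (h7 : q₇ ≤ n ∧ n < 3 * q₇)
    (h2 : q₂ ≤ n ∧ n < 3 * q₂) (r3 : 5 * q₃ = 3 * q₇ ∨ 5 * q₃ = 9 * q₇)
    (r7 : 7 * q₇ = 3 * q ∨ 7 * q₇ = 9 * q) (r2 : 5 * q = 3 * q₂ ∨ 5 * q = 9 * q₂)
    (hc : 2 * q ≤ 1 * n ∧ 7 * n < 15 * q) :
    QS n q₃ q₇ q q₂ = [false, false, false, false, true, false, false, false] := by
  have r7' : 7 * q₇ = 9 * q := by clear r3 r2 h3 h2; omega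
  have r3' : 5 * q₃ = 3 * q₇ := by clear r7 r2 h2; omega
  have r2' : 5 * q = 3 * q₂ := by clear r3 r7 h3 h7 r7' r3'; omega
  clear h3 h7 h2 r3 r7 r2
  simp only [QS, List.cons.injEq, decide_eq_true_eq, decide_eq_false_iff_not, and_true]
  refine ⟨?_, ?_, ?_, ?_, ?_, ?_, ?_, ?_⟩ <;>
    first
      | linarith
      | (intro hh; linarith)
      | (rintro ⟨h1, h2⟩; linarith)
      | (constructor <;> linarith)

theorem q_9 (n q₃ q₇ q q₂ : ℕ) (h3 : q₃ ≤ n ∧ n < 3 * q₃) (h7 : q₇ ≤ n ∧ n < 3 * q₇)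
    (h2 : q₂ ≤ n ∧ n < 3 * q₂) (r3 : 5 * q₃ = 3 * q₇ ∨ 5 * q₃ = 9 * q₇)
    (r7 : 7 * q₇ = 3 * q ∨ 7 * q₇ = 9 * q) (r2 : 5 * q = 3 * q₂ ∨ 5 * q = 9 * q₂)
    (hc : 15 * q ≤ 7 * n ∧ 35 * n < 81 * q) :
    QS n q₃ q₇ q q₂ = [false, false, false, true, true, false, false, false] := by
  have r7' : 7 * q₇ = 9 * q := by clear r3 r2 h3 h2; omega
  have r3' : 5 * q₃ = 3 * q₇ := by clear r7 r2 h2; omega
  have r2' : 5 * q = 3 * q₂ := by clear r3 r7 h3 h7 r7' r3'; omega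
  clear h3 h7 h2 r3 r7 r2
  simp only [QS, List.cons.injEq, decide_eq_true_eq, decide_eq_false_iff_not, and_true]
  refine ⟨?_, ?_, ?_, ?_, ?_, ?_, ?_, ?_⟩ <;>
    first
      | linarith
      | (intro hh; linarith)
      | (rintro ⟨h1, h2⟩; linarith)
      | (constructor <;> linarith)

theorem q_10 (n q₃ q₇ q q₂ : ℕ) (h3 : q₃ ≤ n ∧ n < 3 * q₃) (h7 : q₇ ≤ n ∧ n < 3 * q₇)
    (h2 : q₂ ≤ n ∧ n < 3 * q₂) (r3 : 5 * q₃ = 3 * q₇ ∨ 5 * q₃ = 9 * q₇)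
    (r7 : 7 * q₇ = 3 * q ∨ 7 * q₇ = 9 * q) (r2 : 5 * q = 3 * q₂ ∨ 5 * q = 9 * q₂)
    (hc : 81 * q ≤ 35 * n ∧ 5 * n < 12 * q) :
    QS n q₃ q₇ q q₂ = [false, false, false, true, true, false, false, false] := by
  have r7' : 7 * q₇ = 9 * q := by clear r3 r2 h3 h2; omega
  have r3' : 5 * q₃ = 9 * q₇ := by clear r7 r2 h2; omega
  have r2' : 5 * q = 3 * q₂ := by clear r3 r7 h3 h7 r7' r3'; omega
  clear h3 h7 h2 r3 r7 r2
  simp only [QS, List.cons.injEq, decide_eq_true_eq, decide_eq_false_iff_not, and_true]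
  refine ⟨?_, ?_, ?_, ?_, ?_, ?_, ?_, ?_⟩ <;>
    first
      | linarith
      | (intro hh; linarith)
      | (rintro ⟨h1, h2⟩; linarith)
      | (constructor <;> linarith)

theorem q_11 (n q₃ q₇ q q₂ : ℕ) (h3 : q₃ ≤ n ∧ n < 3 * q₃) (h7 : q₇ ≤ n ∧ n < 3 * q₇)
    (h2 : q₂ ≤ n ∧ n < 3 * q₂) (r3 : 5 * q₃ = 3 * q₇ ∨ 5 * q₃ = 9 * q₇)
    (r7 : 7 * q₇ = 3 * q ∨ 7 * q₇ = 9 * q) (r2 : 5 * q = 3 * q₂ ∨ 5 * q = 9 * q₂)
    (hc : 12 * q ≤ 5 * n ∧ 7 * n < 18 * q) :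
    QS n q₃ q₇ q q₂ = [false, false, false, true, false, false, false, false] := by
  have r7' : 7 * q₇ = 9 * q := by clear r3 r2 h3 h2; omega
  have r3' : 5 * q₃ = 9 * q₇ := by clear r7 r2 h2; omega
  have r2' : 5 * q = 3 * q₂ := by clear r3 r7 h3 h7 r7' r3'; omega
  clear h3 h7 h2 r3 r7 r2
  simp only [QS, List.cons.injEq, decide_eq_true_eq, decide_eq_false_iff_not, and_true]
  refine ⟨?_, ?_, ?_, ?_, ?_, ?_, ?_, ?_⟩ <;>
    first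
      | linarith
      | (intro hh; linarith)
      | (rintro ⟨h1, h2⟩; linarith)
      | (constructor <;> linarith)

theorem q_12 (n q₃ q₇ q q₂ : ℕ) (h3 : q₃ ≤ n ∧ n < 3 * q₃) (h7 : q₇ ≤ n ∧ n < 3 * q₇)
    (h2 : q₂ ≤ n ∧ n < 3 * q₂) (r3 : 5 * q₃ = 3 * q₇ ∨ 5 * q₃ = 9 * q₇)
    (r7 : 7 * q₇ = 3 * q ∨ 7 * q₇ = 9 * q) (r2 : 5 * q = 3 * q₂ ∨ 5 * q = 9 * q₂)
    (hc : 18 * q ≤ 7 * n ∧ 9 * n < 25 * q) :
    QS n q₃ q₇ q q₂ = [false, false, true, false, false, false, false, false] := by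
  have r7' : 7 * q₇ = 9 * q := by clear r3 r2 h3 h2; omega
  have r3' : 5 * q₃ = 9 * q₇ := by clear r7 r2 h2; omega
  have r2' : 5 * q = 3 * q₂ := by clear r3 r7 h3 h7 r7' r3'; omega
  clear h3 h7 h2 r3 r7 r2
  simp only [QS, List.cons.injEq, decide_eq_true_eq, decide_eq_false_iff_not, and_true]
  refine ⟨?_, ?_, ?_, ?_, ?_, ?_, ?_, ?_⟩ <;>
    first
      | linarith
      | (intro hh; linarith)
      | (rintro ⟨h1, h2⟩; linarith)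
      | (constructor <;> linarith)

theorem q_13 (n q₃ q₇ q q₂ : ℕ) (h3 : q₃ ≤ n ∧ n < 3 * q₃) (h7 : q₇ ≤ n ∧ n < 3 * q₇)
    (h2 : q₂ ≤ n ∧ n < 3 * q₂) (r3 : 5 * q₃ = 3 * q₇ ∨ 5 * q₃ = 9 * q₇)
    (r7 : 7 * q₇ = 3 * q ∨ 7 * q₇ = 9 * q) (r2 : 5 * q = 3 * q₂ ∨ 5 * q = 9 * q₂)
    (hc : 25 * q ≤ 9 * n ∧ 1 * n < 3 * q) :
    QS n q₃ q₇ q q₂ = [false, false, true, false, false, false, false, true] := by
  have r7' : 7 * q₇ = 9 * q := by clear r3 r2 h3 h2; omega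
  have r3' : 5 * q₃ = 9 * q₇ := by clear r7 r2 h2; omega
  have r2' : 5 * q = 3 * q₂ := by clear r3 r7 h3 h7 r7' r3'; omega
  clear h3 h7 h2 r3 r7 r2
  simp only [QS, List.cons.injEq, decide_eq_true_eq, decide_eq_false_iff_not, and_true]
  refine ⟨?_, ?_, ?_, ?_, ?_, ?_, ?_, ?_⟩ <;>
    first
      | linarith
      | (intro hh; linarith)
      | (rintro ⟨h1, h2⟩; linarith)
      | (constructor <;> linarith)

theorem ps_mem (n p₃ p₇ p p₂ : ℕ) (h3 : p₃ ≤ n ∧ n < 4 * p₃) (h7 : p₇ ≤ n ∧ n < 4 * p₇)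
    (h : p ≤ n ∧ n < 4 * p) (h2 : p₂ ≤ n ∧ n < 4 * p₂) (r3 : 5 * p₃ = 4 * p₇ ∨ 5 * p₃ = 16 * p₇)
    (r7 : 7 * p₇ = 4 * p ∨ 7 * p₇ = 16 * p) (r2 : 5 * p = 4 * p₂ ∨ 5 * p = 16 * p₂) :
    PS n p₃ p₇ p p₂ ∈ LP := by
  by_cases c0 : 7 * n < 8 * p
  · rw [p_0 n p₃ p₇ p p₂ h3 h7 h2 r3 r7 r2 ⟨by clear r3 r7 r2 h3 h7 h2; omega, c0⟩]; decide +kernel
  by_cases c1 : 4 * n < 5 * p
  · rw [p_1 n p₃ p₇ p p₂ h3 h7 h2 r3 r7 r2 ⟨not_lt.mp c0, c1⟩]; decide +kernel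
  by_cases c2 : 7 * n < 10 * p
  · rw [p_2 n p₃ p₇ p p₂ h3 h7 h2 r3 r7 r2 ⟨not_lt.mp c1, c2⟩]; decide +kernel
  by_cases c3 : 175 * n < 256 * p
  · rw [p_3 n p₃ p₇ p p₂ h3 h7 h2 r3 r7 r2 ⟨not_lt.mp c2, c3⟩]; decide +kernel
  by_cases c4 : 35 * n < 64 * p
  · rw [p_4 n p₃ p₇ p p₂ h3 h7 h2 r3 r7 r2 ⟨not_lt.mp c3, c4⟩]; decide +kernel
  by_cases c5 : 1 * n < 2 * p
  · rw [p_5 n p₃ p₇ p p₂ h3 h7 h2 r3 r7 r2 ⟨not_lt.mp c4, c5⟩]; decide +kernel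
  by_cases c6 : 7 * n < 16 * p
  · rw [p_6 n p₃ p₇ p p₂ h3 h7 h2 r3 r7 r2 ⟨not_lt.mp c5, c6⟩]; decide +kernel
  by_cases c7 : 2 * n < 5 * p
  · rw [p_7 n p₃ p₇ p p₂ h3 h7 h2 r3 r7 r2 ⟨not_lt.mp c6, c7⟩]; decide +kernel
  by_cases c8 : 8 * n < 25 * p
  · rw [p_8 n p₃ p₇ p p₂ h3 h7 h2 r3 r7 r2 ⟨not_lt.mp c7, c8⟩]; decide +kernel
  by_cases c9 : 5 * n < 16 * p
  · rw [p_9 n p₃ p₇ p p₂ h3 h7 h2 r3 r7 r2 ⟨not_lt.mp c8, c9⟩]; decide +kernel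
  by_cases c10 : 35 * n < 128 * p
  · rw [p_10 n p₃ p₇ p p₂ h3 h7 h2 r3 r7 r2 ⟨not_lt.mp c9, c10⟩]; decide +kernel
  rw [p_11 n p₃ p₇ p p₂ h3 h7 h2 r3 r7 r2 ⟨not_lt.mp c10, by clear r3 r7 r2 h3 h7 h2; omega⟩]; decide +kernel

theorem qs_mem (n q₃ q₇ q q₂ : ℕ) (h3 : q₃ ≤ n ∧ n < 3 * q₃) (h7 : q₇ ≤ n ∧ n < 3 * q₇)
    (h : q ≤ n ∧ n < 3 * q) (h2 : q₂ ≤ n ∧ n < 3 * q₂) (r3 : 5 * q₃ = 3 * q₇ ∨ 5 * q₃ = 9 * q₇)
    (r7 : 7 * q₇ = 3 * q ∨ 7 * q₇ = 9 * q) (r2 : 5 * q = 3 * q₂ ∨ 5 * q = 9 * q₂) :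
    QS n q₃ q₇ q q₂ ∈ LQ := by
  by_cases c0 : 35 * n < 36 * q
  · rw [q_0 n q₃ q₇ q q₂ h3 h7 h2 r3 r7 r2 ⟨by clear r3 r7 r2 h3 h7 h2; omega, c0⟩]; decide +kernel
  by_cases c1 : 9 * n < 10 * q
  · rw [q_1 n q₃ q₇ q q₂ h3 h7 h2 r3 r7 r2 ⟨not_lt.mp c0, c1⟩]; decide +kernel
  by_cases c2 : 7 * n < 9 * q
  · rw [q_2 n q₃ q₇ q q₂ h3 h7 h2 r3 r7 r2 ⟨not_lt.mp c1, c2⟩]; decide +kernel
  by_cases c3 : 3 * n < 4 * q
  · rw [q_3 n q₃ q₇ q q₂ h3 h7 h2 r3 r7 r2 ⟨not_lt.mp c2, c3⟩]; decide +kernel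
  by_cases c4 : 35 * n < 54 * q
  · rw [q_4 n q₃ q₇ q q₂ h3 h7 h2 r3 r7 r2 ⟨not_lt.mp c3, c4⟩]; decide +kernel
  by_cases c5 : 3 * n < 5 * q
  · rw [q_5 n q₃ q₇ q q₂ h3 h7 h2 r3 r7 r2 ⟨not_lt.mp c4, c5⟩]; decide +kernel
  by_cases c6 : 175 * n < 324 * q
  · rw [q_6 n q₃ q₇ q q₂ h3 h7 h2 r3 r7 r2 ⟨not_lt.mp c5, c6⟩]; decide +kernel
  by_cases c7 : 1 * n < 2 * q
  · rw [q_7 n q₃ q₇ q q₂ h3 h7 h2 r3 r7 r2 ⟨not_lt.mp c6, c7⟩]; decide +kernel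
  by_cases c8 : 7 * n < 15 * q
  · rw [q_8 n q₃ q₇ q q₂ h3 h7 h2 r3 r7 r2 ⟨not_lt.mp c7, c8⟩]; decide +kernel
  by_cases c9 : 35 * n < 81 * q
  · rw [q_9 n q₃ q₇ q q₂ h3 h7 h2 r3 r7 r2 ⟨not_lt.mp c8, c9⟩]; decide +kernel
  by_cases c10 : 5 * n < 12 * q
  · rw [q_10 n q₃ q₇ q q₂ h3 h7 h2 r3 r7 r2 ⟨not_lt.mp c9, c10⟩]; decide +kernel
  by_cases c11 : 7 * n < 18 * q
  · rw [q_11 n q₃ q₇ q q₂ h3 h7 h2 r3 r7 r2 ⟨not_lt.mp c10, c11⟩]; decide +kernel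
  by_cases c12 : 9 * n < 25 * q
  · rw [q_12 n q₃ q₇ q q₂ h3 h7 h2 r3 r7 r2 ⟨not_lt.mp c11, c12⟩]; decide +kernel
  rw [q_13 n q₃ q₇ q q₂ h3 h7 h2 r3 r7 r2 ⟨not_lt.mp c12, by clear r3 r7 r2 h3 h7 h2; omega⟩]; decide +kernel


open Classical in
theorem tb_iff (f : Prop) (n p q : ℕ) :
    TC f n p q ↔ TB (decide f) (decide (2 * p ≤ n)) (decide (16 * p ≤ 5 * n)) (decide (2 * n < 5 * p))
      (decide (2 * q ≤ n ∧ 5 * n < 12 * q)) (decide (5 * q ≤ 3 * n ∧ n < 2 * q)) = true := by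
  unfold TC TB
  simp only [Bool.and_eq_true, Bool.not_eq_true', Bool.and_eq_false_iff, decide_eq_true_eq,
    decide_eq_false_iff_not, not_and_or]
  tauto

/-- **C5.** -/
theorem gC5 : C5 := by
  classical
  intro f n p₃ q₃ p₇ q₇ p q p₂ q₂ h3 h7 h h2 l3 l7 l2 hn hn'
  have hP := ps_mem n p₃ p₇ p p₂ ⟨h3.1, h3.2.1⟩ ⟨h7.1, h7.2.1⟩ ⟨h.1, h.2.1⟩ ⟨h2.1, h2.2.1⟩ l3.1 l7.1 l2.1
  have hQ := qs_mem n q₃ q₇ q q₂ ⟨h3.2.2.1, h3.2.2.2⟩ ⟨h7.2.2.1, h7.2.2.2⟩ ⟨h.2.2.1, h.2.2.2⟩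
    ⟨h2.2.2.1, h2.2.2.2⟩ l3.2 l7.2 l2.2
  have hc := chk_all _ hP _ hQ (decide f)
  have e3 := tb_iff f n p₃ q₃
  have e7 := tb_iff True n p₇ q₇
  have e := tb_iff True n p q
  have e2 := tb_iff True n p₂ q₂
  have ht : @decide True (Classical.propDecidable True) = true := by simp
  rw [ht] at e7 e e2
  simp only [chk, PS, QS, Bool.or_eq_true, beq_iff_eq] at hc
  rw [e3, e7] at hn
  rw [e7, e] at hn'
  rw [e2, e]
  rcases hc with (hc | hc) | hc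
  · exact absurd (by rw [hc]) hn
  · exact absurd (by rw [hc]) hn'
  · rw [hc]

end Pool.Agent.Helper63.VF
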